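import Mathlib
import Pool.Agent.H870R4.Noz.Stmts

set_option autoImplicit false

namespace H227Noz

open Complex H870N

lemma log_re' (s : ℂ) : (Complex.log s).re = Real.log ‖s‖ := Complex.log_re s
lemma log_im' (s : ℂ) : (Complex.log s).im = Complex.arg s := Complex.log_im s

lemma z_re (s : ℂ) : ((Complex.I - 1) * Complex.log s).re = -(Real.log ‖s‖ + Complex.arg s) := by
  rw [Complex.mul_re, log_re', log_im']
  simp
  ring

lemma z_im (s : ℂ) : ((Complex.I - 1) * Complex.log s).im = lam s := by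
  rw [Complex.mul_im, log_re', log_im']
  simp [lam]
  ring

lemma Bp_norm (s : ℂ) : ‖Bp s‖ = Real.exp (-(Real.log ‖s‖ + Complex.arg s)) := by
  unfold Bp
  rw [norm_mul, Complex.norm_I, one_mul, Complex.norm_exp, z_re]

lemma Bp_re (s : ℂ) : (Bp s).re =
    -(Real.exp (-(Real.log ‖s‖ + Complex.arg s)) * Real.sin (lam s)) := by
  unfold Bp
  rw [Complex.mul_re, Complex.I_re, Complex.I_im, Complex.exp_im, z_re, z_im]
  ring

lemma norm_diff (δ : ℝ) (B : ℂ) : ‖1 + δ * B‖ ^ 2 - ‖1 - δ * B‖ ^ 2 = 4 * δ * B.re := by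
  rw [← Complex.normSq_eq_norm_sq, ← Complex.normSq_eq_norm_sq, Complex.normSq_apply,
    Complex.normSq_apply]
  simp
  ring

lemma Bp_eq_div {s : ℂ} (hs : s ≠ 0) : Bp s = Complex.exp (Complex.I * Complex.log s) *
    (Complex.I * (1 / s)) := by
  unfold Bp
  have h : (Complex.I - 1) * Complex.log s = Complex.I * Complex.log s - Complex.log s := by ring
  rw [h, Complex.exp_sub, Complex.exp_log hs]
  field_simp

lemma Bf_deriv {s : ℂ} (hs : 0 < s.re) : HasDerivAt Bf (Bp s) s := by
  have hsl : s ∈ Complex.slitPlane := Or.inl hs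
  have hs0 : s ≠ 0 := Complex.slitPlane_ne_zero hsl
  have h1 : HasDerivAt (fun s => Complex.log s) (s⁻¹) s := Complex.hasDerivAt_log hsl
  have h2 : HasDerivAt (fun s => Complex.I * Complex.log s) (Complex.I * s⁻¹) s := h1.const_mul _
  have h3 := h2.cexp
  rw [Bp_eq_div hs0, one_div]
  exact h3

lemma arg_bound {s : ℂ} (hs : 0 < s.re) : |Complex.arg s| ≤ |s.im| / s.re := by
  have h0 : |Complex.arg s| < Real.pi / 2 := by
    rw [Complex.abs_arg_lt_pi_div_two_iff]
    exact Or.inl hs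
  have ht : Real.tan (Complex.arg s) = s.im / s.re := Complex.tan_arg s
  have h1 : |Real.tan (Complex.arg s)| = |s.im| / s.re := by
    rw [ht, abs_div, abs_of_pos hs]
  rw [← h1]
  rcases le_total 0 (Complex.arg s) with ha | ha
  · have := Real.le_tan ha (by rw [abs_of_nonneg ha] at h0; exact h0)
    rw [abs_of_nonneg ha]
    exact this.trans (le_abs_self _)
  · have := Real.le_tan (neg_nonneg.2 ha) (by rw [abs_of_nonpos ha] at h0; exact h0)
    rw [abs_of_nonpos ha]
    rw [Real.tan_neg] at this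
    exact this.trans (neg_le_abs _)

/-- the function lam composed with σ has the real derivative v ↦ Re(c v) -/
lemma lam_fderiv {σ : ℂ → ℂ} {w σ' : ℂ} (hd : HasDerivAt σ σ' w) (hs : 0 < (σ w).re) :
    ‖fderiv ℝ (fun w => lam (σ w)) w‖ ^ 2 = 2 * ‖σ'‖ ^ 2 / ‖σ w‖ ^ 2 := by
  have hsl : σ w ∈ Complex.slitPlane := Or.inl hs
  have h1 : HasDerivAt (fun w => (1 + Complex.I) * Complex.log (σ w))
      ((1 + Complex.I) * (σ' / σ w)) w := (hd.clog hsl).const_mul _
  have h2 : HasFDerivAt (𝕜 := ℝ) (fun w => (1 + Complex.I) * Complex.log (σ w))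
      ((ContinuousLinearMap.toSpanSingleton ℂ ((1 + Complex.I) * (σ' / σ w))).restrictScalars ℝ) w :=
    h1.hasFDerivAt.restrictScalars ℝ
  have h3 : HasFDerivAt (𝕜 := ℝ) (fun w => ((1 + Complex.I) * Complex.log (σ w)).re)
      (Complex.reCLM.comp ((ContinuousLinearMap.toSpanSingleton ℂ
        ((1 + Complex.I) * (σ' / σ w))).restrictScalars ℝ)) w :=
    Complex.reCLM.hasFDerivAt.comp w h2
  have h4 : (fun w => lam (σ w)) = (fun w => ((1 + Complex.I) * Complex.log (σ w)).re) := by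
    funext w
    rw [Complex.mul_re, log_re', log_im']
    simp [lam]
  rw [h4, h3.fderiv]
  set c : ℂ := (1 + Complex.I) * (σ' / σ w) with hc
  have hn : ‖Complex.reCLM.comp ((ContinuousLinearMap.toSpanSingleton ℂ c).restrictScalars ℝ)‖
      = ‖c‖ := by
    apply le_antisymm
    · apply ContinuousLinearMap.opNorm_le_bound _ (norm_nonneg _)
      intro v
      have : (Complex.reCLM.comp ((ContinuousLinearMap.toSpanSingleton ℂ c).restrictScalars ℝ)) v
          = (v * c).re := by simp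
      rw [this, Real.norm_eq_abs]
      calc |(v * c).re| ≤ ‖v * c‖ := Complex.abs_re_le_norm _
        _ = ‖c‖ * ‖v‖ := by rw [norm_mul]; ring
    · rcases eq_or_ne c 0 with h0 | h0
      · rw [h0]; simp
      · have hcp : 0 < ‖c‖ := norm_pos_iff.2 h0
        have h := ContinuousLinearMap.le_opNorm
          (Complex.reCLM.comp ((ContinuousLinearMap.toSpanSingleton ℂ c).restrictScalars ℝ))
          ((starRingEnd ℂ) c)
        have this : (Complex.reCLM.comp
            ((ContinuousLinearMap.toSpanSingleton ℂ c).restrictScalars ℝ)) ((starRingEnd ℂ) c)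
            = ‖c‖ ^ 2 := by
          simp only [ContinuousLinearMap.coe_comp, Function.comp_apply,
            ContinuousLinearMap.coe_restrictScalars', ContinuousLinearMap.toSpanSingleton_apply,
            smul_eq_mul, Complex.reCLM_apply]
          rw [← Complex.normSq_eq_norm_sq, Complex.normSq_apply]
          simp
        rw [this, Real.norm_eq_abs, abs_of_nonneg (by positivity), RCLike.norm_conj, sq] at h
        exact le_of_mul_le_mul_right h hcp
  rw [hn, hc, norm_mul, norm_div, mul_pow, div_pow]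
  have h5 : ‖(1 + Complex.I : ℂ)‖ ^ 2 = 2 := by
    rw [← Complex.normSq_eq_norm_sq, Complex.normSq_apply]
    simp
    norm_num
  rw [h5]
  ring

lemma exp1 : Real.exp 3.303 ≤ 27.7 := by
  have h1 : Real.exp 3.303 = Real.exp 1 ^ 3 * Real.exp 0.303 := by
    rw [← Real.exp_nat_mul, ← Real.exp_add]; norm_num
  have h2 := Real.exp_one_lt_d9
  have h3 : Real.exp 0.303 ≤ 1.36 := by
    have := Real.exp_bound' (x := 0.303) (by norm_num) (by norm_num) (n := 4) (by norm_num)
    norm_num [Finset.sum_range_succ, Nat.factorial] at this ⊢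
    linarith
  rw [h1]
  calc Real.exp 1 ^ 3 * Real.exp 0.303 ≤ 2.7182818286 ^ 3 * 1.36 := by gcongr
    _ ≤ 27.7 := by norm_num

lemma exp2 : Real.exp 6.2833 ≤ 536.5 := by
  have h1 : Real.exp 6.2833 = Real.exp 1 ^ 6 * Real.exp 0.2833 := by
    rw [← Real.exp_nat_mul, ← Real.exp_add]; norm_num
  have h2 := Real.exp_one_lt_d9
  have h3 : Real.exp 0.2833 ≤ 1.329 := by
    have := Real.exp_bound' (x := 0.2833) (by norm_num) (by norm_num) (n := 4) (by norm_num)
    norm_num [Finset.sum_range_succ, Nat.factorial] at this ⊢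
    linarith
  rw [h1]
  calc Real.exp 1 ^ 6 * Real.exp 0.2833 ≤ 2.7182818286 ^ 6 * 1.329 := by gcongr
    _ ≤ 536.5 := by norm_num

lemma Bp_norm' {s : ℂ} (hs : 0 < s.re) : ‖Bp s‖ = Real.exp (-Complex.arg s) / ‖s‖ := by
  have hs0 : 0 < ‖s‖ := norm_pos_iff.2 (fun h => by rw [h] at hs; simp at hs)
  rw [Bp_norm, neg_add_rev, Real.exp_add, Real.exp_neg (Real.log ‖s‖), Real.exp_log hs0]
  rfl

set_option maxHeartbeats 4000000 in
theorem core : TaskCore := by
  refine ⟨1 / 100000, by norm_num, ?_⟩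
  intro δ σ hδ hδ1 hinv w hw
  obtain ⟨hsr, hsw, hseq, hne, hder⟩ := hinv w hw
  obtain ⟨hw1, hw2, hw3⟩ := hw
  obtain ⟨hs1, hs2, hs3⟩ := hsr
  set s : ℂ := σ w with hsdef
  have hx0 : 0 < s.re := lt_trans (by norm_num) hs1
  have hxw : |s.re - w.re| ≤ 2 * δ := by
    have := Complex.abs_re_le_norm (s - w)
    rw [Complex.sub_re] at this
    linarith
  have hyw : |s.im - w.im| ≤ 2 * δ := by
    have := Complex.abs_im_le_norm (s - w)
    rw [Complex.sub_im] at this
    linarith
  have hns : s.re ≤ ‖s‖ := (le_abs_self _).trans (Complex.abs_re_le_norm s)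
  have hn0 : 0 < ‖s‖ := lt_of_lt_of_le hx0 hns
  have harg : |Complex.arg s| ≤ |s.im| / s.re := arg_bound hx0
  have harg1 : |Complex.arg s| ≤ 7 / 30 := by
    refine harg.trans ?_
    rw [div_le_iff₀ hx0]
    have : |s.im| ≤ 1 / 150 := hs3.le
    nlinarith
  have hB : ‖Bp s‖ ≤ 50 := by
    rw [Bp_norm' hx0, div_le_iff₀ hn0]
    have h1 : Real.exp (-Complex.arg s) ≤ Real.exp (7 / 30) := by
      apply Real.exp_le_exp.2
      have := abs_le.1 harg1
      linarith [this.1]
    have h2 : Real.exp (7 / 30) ≤ 1.4 := by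
      have := Real.exp_bound' (x := 7 / 30) (by norm_num) (by norm_num) (n := 4) (by norm_num)
      norm_num [Finset.sum_range_succ, Nat.factorial] at this ⊢
      linarith
    nlinarith
  have hδB : ‖(δ : ℂ) * Bp s‖ ≤ 50 * δ := by
    rw [norm_mul, Complex.norm_real, Real.norm_eq_abs, abs_of_pos hδ]
    nlinarith
  have hδB1 : ‖(δ : ℂ) * Bp s‖ ≤ 1 / 2000 := by
    refine hδB.trans ?_
    linarith
  have hp1 : 1 - 1 / 2000 ≤ ‖1 + (δ : ℂ) * Bp s‖ := by
    have := norm_sub_norm_le (1 : ℂ) (-((δ : ℂ) * Bp s))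
    rw [norm_one, norm_neg, sub_neg_eq_add] at this
    linarith
  have hp2 : ‖1 + (δ : ℂ) * Bp s‖ ≤ 1 + 1 / 2000 := by
    have := norm_add_le (1 : ℂ) ((δ : ℂ) * Bp s)
    rw [norm_one] at this
    linarith
  have hm1 : 1 - 1 / 2000 ≤ ‖1 - (δ : ℂ) * Bp s‖ := by
    have := norm_sub_norm_le (1 : ℂ) ((δ : ℂ) * Bp s)
    rw [norm_one] at this
    linarith
  have hm2 : ‖1 - (δ : ℂ) * Bp s‖ ≤ 1 + 1 / 2000 := by
    have := norm_sub_le (1 : ℂ) ((δ : ℂ) * Bp s)
    rw [norm_one] at this
    linarith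
  have hp0 : 0 < ‖1 + (δ : ℂ) * Bp s‖ := by linarith
  have hm0 : 0 < ‖1 - (δ : ℂ) * Bp s‖ := by linarith
  have hmne : 1 - (δ : ℂ) * Bp s ≠ 0 := norm_pos_iff.1 hm0
  -- Vm ^ 2 - 1
  have hV : Vm δ s ^ 2 - 1 = -(4 * δ * (Real.exp (-(Real.log ‖s‖ + Complex.arg s)) *
      Real.sin (lam s))) / ‖1 - (δ : ℂ) * Bp s‖ ^ 2 := by
    have h := norm_diff δ (Bp s)
    rw [Bp_re] at h
    unfold Vm
    rw [div_pow, eq_div_iff (by positivity), sub_mul, div_mul_cancel₀ _ (by positivity)]
    linarith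
  have hexp : Real.exp (-(Real.log ‖s‖ + Complex.arg s)) = Real.exp (lam s) / ‖s‖ ^ 2 := by
    rw [eq_div_iff (by positivity)]
    have : ‖s‖ ^ 2 = Real.exp (2 * Real.log ‖s‖) := by
      rw [mul_comm, Real.exp_mul, Real.exp_log hn0]
      norm_num
    rw [this, ← Real.exp_add]
    congr 1
    unfold lam
    ring
  have hδw1 := abs_le.1 hxw
  have hδw2 := abs_le.1 hyw
  refine ⟨hmne, ?_, ?_, ?_, ?_, ?_, ?_, ?_, ?_⟩
  · have h1 : HasDerivAt (fun w => Bf (σ w)) (Bp s * (1 / (1 + δ * Bp s))) w :=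
      (Bf_deriv hx0).comp w hder
    have h2 := (hasDerivAt_id w).sub (h1.const_mul (2 * (δ : ℂ)))
    have h3 : (1 - (δ : ℂ) * Bp s) / (1 + δ * Bp s) =
        1 - 2 * (δ : ℂ) * (Bp s * (1 / (1 + δ * Bp s))) := by
      field_simp
      ring
    rw [h3]
    exact h2
  · have h1 : (1 - (δ : ℂ) * Bp s) / (1 + δ * Bp s) - 1 = -(2 * ((δ : ℂ) * Bp s)) / (1 + δ * Bp s) := by
      field_simp
      ring
    rw [h1, norm_div, norm_neg, norm_mul, div_le_iff₀ hp0]
    have : ‖(2 : ℂ)‖ = 2 := by norm_num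
    rw [this]
    linarith
  · exact div_pos hp0 hm0
  · unfold Vm
    rw [div_le_iff₀ hm0]
    linarith
  · rw [lam_fderiv hder hx0, hV, hexp, norm_div, norm_one]
    unfold Vm
    rw [div_pow]
    have e1 := hp0.ne'
    have e2 := hm0.ne'
    have e3 := hn0.ne'
    rw [← hsdef]
    field_simp
    ring
  · intro h28 h200
    have hns2 : ‖s‖ ^ 2 ≤ 0.0361 ^ 2 := by
      rw [← Complex.normSq_eq_norm_sq, Complex.normSq_apply]
      have hy : |s.im| ≤ 1 / 200 + 2 / 100000 := by
        have : |s.im| ≤ |w.im| + |s.im - w.im| := by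
          have := abs_add_le w.im (s.im - w.im)
          simpa using this
        linarith
      have hy2 : s.im * s.im ≤ (1 / 200 + 2 / 100000) ^ 2 := by
        rw [← abs_mul_abs_self, ← sq]
        gcongr
      have hx2 : s.re * s.re ≤ (1 / 28 + 2 / 100000) ^ 2 := by
        rw [← sq]
        gcongr
        linarith
      norm_num at hy2 hx2 ⊢
      linarith
    have hns3 : ‖s‖ ≤ 0.0361 := by
      exact le_of_sq_le_sq hns2 (by norm_num)
    have hlog : Real.log ‖s‖ ≤ -3.303 := by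
      rw [Real.log_le_iff_le_exp hn0, Real.exp_neg]
      have h1 := exp1
      have h2 : (0.0361 : ℝ) ≤ (Real.exp 3.303)⁻¹ := by
        rw [le_inv_comm₀ (by norm_num) (Real.exp_pos _)]
        refine h1.trans ?_
        norm_num
      exact hns3.trans h2
    have ha : |Complex.arg s| ≤ 0.161 := by
      refine harg.trans ?_
      rw [div_le_iff₀ hx0]
      have hy : |s.im| ≤ 1 / 200 + 2 / 100000 := by
        have : |s.im| ≤ |w.im| + |s.im - w.im| := by
          have := abs_add_le w.im (s.im - w.im)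
          simpa using this
        linarith
      have hx : 1 / 32 - 2 / 100000 ≤ s.re := by linarith [hδw1.1]
      nlinarith
    have hpi := Real.pi_lt_d6
    have := abs_le.1 ha
    unfold lam
    linarith [this.1]
  · intro h537
    have hx : 536.9 ≤ s.re := by
      have := hδw1.1
      norm_num
      linarith
    have hlog : 6.2833 ≤ Real.log ‖s‖ := by
      rw [Real.le_log_iff_exp_le hn0]
      have := exp2
      norm_num at this hx ⊢
      linarith
    have ha : |Complex.arg s| ≤ 0.00002 := by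
      refine harg.trans ?_
      rw [div_le_iff₀ hx0]
      norm_num at hx ⊢
      nlinarith
    have hpi := Real.pi_lt_d6
    have := abs_le.1 ha
    unfold lam
    norm_num at hlog this hpi ⊢
    linarith [this.2]
  · intro h2 h3
    have hx1 : 1.99 ≤ s.re := by
      have := hδw1.1
      norm_num
      linarith
    have hx2 : s.re ≤ 3.001 := by
      have := hδw1.2
      norm_num
      linarith
    have ha : |Complex.arg s| ≤ 0.004 := by
      refine harg.trans ?_
      rw [div_le_iff₀ hx0]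
      norm_num at hx1 ⊢
      nlinarith
    have ha' := abs_le.1 ha
    have hn2 : ‖s‖ ≤ 3.01 := by
      have h1 : ‖s‖ ≤ |s.re| + |s.im| := Complex.norm_le_abs_re_add_abs_im s
      rw [abs_of_pos hx0] at h1
      norm_num at hx2 ⊢
      linarith
    have hn1 : 1.99 ≤ ‖s‖ := hx1.trans hns
    have hlog1 : 0.49 ≤ Real.log ‖s‖ := by
      have h1 : 1 - (‖s‖)⁻¹ ≤ Real.log ‖s‖ := Real.one_sub_inv_le_log_of_pos hn0
      have h2 : (‖s‖)⁻¹ ≤ 0.51 := by
        rw [inv_le_comm₀ hn0 (by norm_num)]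
        refine le_trans ?_ hn1
        norm_num
      norm_num at h2 ⊢
      linarith
    have hlog2 : Real.log ‖s‖ ≤ 1.5 := by
      rw [Real.log_le_iff_le_exp hn0]
      have := Real.quadratic_le_exp_of_nonneg (x := 1.5) (by norm_num)
      refine hn2.trans (le_trans ?_ this)
      norm_num
    have hpi1 := Real.pi_gt_d6
    have hpi2 := Real.pi_lt_d6
    have hlam1 : 0.48 ≤ lam s := by
      unfold lam
      norm_num at hlog1 ha' ⊢
      linarith [ha'.2]
    have hlam2 : lam s ≤ Real.pi / 2 := by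
      unfold lam
      norm_num at hlog2 ha' hpi1 ⊢
      linarith [ha'.1]
    have hsin : 0.3 ≤ Real.sin (lam s) := by
      have h1 := Real.mul_le_sin (x := lam s) (by linarith) hlam2
      refine le_trans ?_ h1
      have h2 : 0.636 ≤ 2 / Real.pi := by
        rw [le_div_iff₀ Real.pi_pos]
        norm_num at hpi2 ⊢
        linarith
      calc (0.3 : ℝ) ≤ 0.636 * 0.48 := by norm_num
        _ ≤ 2 / Real.pi * lam s := by gcongr
    have hE : 0.33 ≤ Real.exp (-(Real.log ‖s‖ + Complex.arg s)) := by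
      rw [← Bp_norm, Bp_norm' hx0, le_div_iff₀ hn0]
      have h1 : 1 - Complex.arg s ≤ Real.exp (-Complex.arg s) := by
        have := Real.add_one_le_exp (-Complex.arg s)
        linarith
      norm_num at hn2 ha' ⊢
      linarith [ha'.2]
    have hden : ‖1 - (δ : ℂ) * Bp s‖ ^ 2 ≤ 1.01 := by
      calc ‖1 - (δ : ℂ) * Bp s‖ ^ 2 ≤ (1 + 1 / 2000) ^ 2 := by gcongr
        _ ≤ 1.01 := by norm_num
    have hprod : 0.099 ≤ Real.exp (-(Real.log ‖s‖ + Complex.arg s)) * Real.sin (lam s) := by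
      calc (0.099 : ℝ) = 0.33 * 0.3 := by norm_num
        _ ≤ _ := mul_le_mul hE hsin (by norm_num) (Real.exp_pos _).le
    have hfin : δ / 4 ≤ 4 * δ * (Real.exp (-(Real.log ‖s‖ + Complex.arg s)) *
      Real.sin (lam s)) / ‖1 - (δ : ℂ) * Bp s‖ ^ 2 := by
      have hDpos : 0 < ‖1 - (δ : ℂ) * Bp s‖ ^ 2 := by positivity
      generalize Real.exp (-(Real.log ‖s‖ + Complex.arg s)) * Real.sin (lam s) = E at hprod ⊢
      generalize ‖1 - (δ : ℂ) * Bp s‖ ^ 2 = D at hden hDpos ⊢
      clear * - hprod hden hDpos hδ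
      rw [le_div_iff₀ hDpos]
      norm_num at hprod hden
      have h1 : δ * D ≤ δ * (101 / 100) := mul_le_mul_of_nonneg_left hden hδ.le
      have h2 : δ * (99 / 1000) ≤ δ * E := mul_le_mul_of_nonneg_left hprod hδ.le
      linarith
    have hV' : Vm δ s ^ 2 = 1 - 4 * δ * (Real.exp (-(Real.log ‖s‖ + Complex.arg s)) *
      Real.sin (lam s)) / ‖1 - (δ : ℂ) * Bp s‖ ^ 2 := by
      rw [neg_div] at hV
      linarith
    rw [hV']
    linarith

end H227Noz
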